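import Pool.Agent.V11242.EM.Main

set_option autoImplicit false

namespace Pool.Agent.Results.MP_c8ce56_lc.EmuBoundedIffNotCH

open Cardinal Pool.Agent.V11242.EM

/-- In ZFC, the `ω₁`-ballean of the group of all permutations of `ℕ` is emu-bounded if and only if
the continuum hypothesis fails. -/
theorem result : EmuBounded ℵ₁ (Equiv.Perm ℕ) ↔ (𝔠 : Cardinal.{0}) ≠ ℵ₁ :=
  emuBounded_iff

end Pool.Agent.Results.MP_c8ce56_lc.EmuBoundedIffNotCH
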